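import Mathlib

/-!
# MP_2eb075_an: the bounded support point `F` is not an extreme point of `S_A^0(𝔹²)`
-/

set_option autoImplicit false
set_option linter.unusedSectionVars false

namespace Pool.Agent.Results.MP_2eb075_an.NotExtreme

open Complex

/-! ### The real inequality -/

/-- The numbers `a > 0` with `λ x² + y² - a x y² ≥ 0` on the quarter disc. -/
def Admissible (lam : ℝ) : Set ℝ :=
  {a | 0 < a ∧ ∀ x y : ℝ, 0 ≤ x → 0 ≤ y → x ^ 2 + y ^ 2 ≤ 1 →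
    0 ≤ lam * x ^ 2 + y ^ 2 - a * x * y ^ 2}

/-- The open unit ball `𝔹²` of `ℂ²` with the Euclidean norm. -/
def Ball : Set (ℂ × ℂ) := {z | ‖z.1‖ ^ 2 + ‖z.2‖ ^ 2 < 1}

/-- The inner product `⟨z, w⟩ = z₁ conj w₁ + z₂ conj w₂`. -/
noncomputable def dot (z w : ℂ × ℂ) : ℂ :=
  z.1 * (starRingEnd ℂ) w.1 + z.2 * (starRingEnd ℂ) w.2

/-- The linear map `A = diag (λ, 1)`. -/
noncomputable def A (lam : ℝ) : ℂ × ℂ →L[ℂ] ℂ × ℂ :=
  ((lam : ℂ) • ContinuousLinearMap.fst ℂ ℂ ℂ).prod (ContinuousLinearMap.snd ℂ ℂ ℂ)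

/-- The map `e^{tA} = diag (e^{λ t}, e^t)`. -/
noncomputable def expA (lam t : ℝ) (z : ℂ × ℂ) : ℂ × ℂ :=
  (exp ((lam : ℂ) * t) * z.1, exp (t : ℂ) * z.2)

/-- The class `N_A`. -/
structure InN (lam : ℝ) (h : ℂ × ℂ → ℂ × ℂ) : Prop where
  holomorphic : DifferentiableOn ℂ h Ball
  zero : h 0 = 0
  deriv : HasFDerivAt h (A lam) 0
  pos : ∀ z ∈ Ball, z ≠ 0 → 0 < (dot (h z) z).re

/-- `h(z, t)` is a Herglotz vector field. -/
structure IsHerglotz (lam : ℝ) (h : ℂ × ℂ → ℝ → ℂ × ℂ) : Prop where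
  inN : ∀ᵐ t : ℝ, 0 ≤ t → InN lam (fun z => h z t)
  meas : ∀ z ∈ Ball, Measurable (fun t => h z t)

/-- `v(z, t)`, `z ∈ 𝔹²`, `t ≥ 0`, is the solution in `𝔹²` of `∂v/∂t = -h(v, t)`, `v(z, 0) = z`
(in integrated form: `v(z, ·)` is locally absolutely continuous and satisfies the equation almost
everywhere). -/
def IsSolution (h v : ℂ × ℂ → ℝ → ℂ × ℂ) : Prop :=
  ∀ z ∈ Ball, ∀ t : ℝ, 0 ≤ t → v z t ∈ Ball ∧
    IntervalIntegrable (fun s => h (v z s) s) MeasureTheory.volume 0 t ∧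
    v z t = z - ∫ s in (0 : ℝ)..t, h (v z s) s

/-- `f` has `A`-parametric representation. -/
def HasParamRep (lam : ℝ) (f : ℂ × ℂ → ℂ × ℂ) : Prop :=
  ∃ h v : ℂ × ℂ → ℝ → ℂ × ℂ, IsHerglotz lam h ∧ IsSolution h v ∧
    TendstoLocallyUniformlyOn (fun (t : ℝ) z => expA lam t (v z t)) f Filter.atTop Ball

/-- The class `S_A^0(𝔹²)`: normalized holomorphic maps with `A`-parametric representation. -/
def SA (lam : ℝ) : Set (ℂ × ℂ → ℂ × ℂ) :=
  {f | DifferentiableOn ℂ f Ball ∧ f 0 = 0 ∧ HasFDerivAt f (ContinuousLinearMap.id ℂ (ℂ × ℂ)) 0 ∧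
    HasParamRep lam f}

/-- The map `F(z) = (z₁ + a / (2 - λ) z₂², z₂)`. -/
noncomputable def F (lam a : ℝ) (z : ℂ × ℂ) : ℂ × ℂ := (z.1 + (a / (2 - lam) : ℝ) * z.2 ^ 2, z.2)

lemma exists_x0 {lam a : ℝ} (hl : 1 ≤ lam) (ha : IsGreatest (Admissible lam) a) :
    ∃ x0 : ℝ, 0 < x0 ∧ x0 < 1 ∧ 1 + (lam - 1) * x0 ^ 2 - a * x0 * (1 - x0 ^ 2) = 0 ∧
      2 * (lam - 1) * x0 - a + 3 * a * x0 ^ 2 = 0 := by
  obtain ⟨⟨ha0, hA⟩, hmax⟩ := ha
  set R : ℝ → ℝ := fun x => 1 + (lam - 1) * x ^ 2 - a * x * (1 - x ^ 2) with hR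
  have hRnn : ∀ x, 0 ≤ x → x ≤ 1 → 0 ≤ R x := by
    intro x hx0 hx1
    have h1 : 0 ≤ 1 - x ^ 2 := by nlinarith
    have h := hA x (Real.sqrt (1 - x ^ 2)) hx0 (Real.sqrt_nonneg _) (by
      rw [Real.sq_sqrt h1]; linarith)
    rw [Real.sq_sqrt h1] at h
    simp only [hR]
    nlinarith
  have hcont : Continuous R := by fun_prop
  obtain ⟨x0, hx0, hmin⟩ := isCompact_Icc.exists_isMinOn (Set.nonempty_Icc.2 (zero_le_one' ℝ))
    hcont.continuousOn
  have hR0 : R x0 = 0 := by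
    by_contra hne
    have hpos : 0 < R x0 := lt_of_le_of_ne (hRnn x0 hx0.1 hx0.2) (Ne.symm hne)
    have hbig : a + R x0 ∈ Admissible lam := by
      refine ⟨by linarith, fun x y hx hy hxy => ?_⟩
      have hx1 : x ≤ 1 := by nlinarith [sq_nonneg y]
      have hRx : R x0 ≤ R x := hmin ⟨hx, hx1⟩
      have hs : 0 ≤ y ^ 2 := sq_nonneg y
      have hs1 : y ^ 2 ≤ 1 - x ^ 2 := by linarith
      -- the value at `y² = 1 - x²`
      have hend : 0 ≤ lam * x ^ 2 + (1 - x ^ 2) * (1 - (a + R x0) * x) := by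
        have h1 : 0 ≤ x * (1 - x ^ 2) := mul_nonneg hx (by linarith)
        have h2 : x * (1 - x ^ 2) ≤ 1 := by nlinarith [mul_nonneg hx (sq_nonneg x)]
        have h3 : R x0 * (x * (1 - x ^ 2)) ≤ R x0 * 1 := mul_le_mul_of_nonneg_left h2 hpos.le
        have h4 : lam * x ^ 2 + (1 - x ^ 2) * (1 - (a + R x0) * x)
            = R x - R x0 * (x * (1 - x ^ 2)) := by simp only [hR]; ring
        rw [h4]; linarith
      by_cases hcase : 0 ≤ 1 - (a + R x0) * x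
      · have : 0 ≤ y ^ 2 * (1 - (a + R x0) * x) := mul_nonneg hs hcase
        nlinarith [sq_nonneg x]
      · push Not at hcase
        nlinarith
    have := hmax hbig
    linarith
  have hx0pos : 0 < x0 := by
    rcases hx0.1.lt_or_eq with h | h
    · exact h
    · exfalso; rw [← h] at hR0; simp [hR] at hR0
  have hx01 : x0 < 1 := by
    rcases hx0.2.lt_or_eq with h | h
    · exact h
    · exfalso; rw [h] at hR0; simp [hR] at hR0; linarith
  refine ⟨x0, hx0pos, hx01, hR0, ?_⟩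
  have hloc : IsLocalMin R x0 := by
    have hnhds : Set.Icc (0 : ℝ) 1 ∈ nhds x0 := Icc_mem_nhds hx0pos hx01
    exact Filter.eventually_of_mem hnhds (fun y hy => hmin hy)
  have hd : HasDerivAt R (2 * (lam - 1) * x0 - a + 3 * a * x0 ^ 2) x0 := by
    have h1 : HasDerivAt (fun x : ℝ => x ^ 2) (2 * x0) x0 := by simpa using hasDerivAt_pow 2 x0
    have h2 : HasDerivAt (fun x : ℝ => x ^ 3) (3 * x0 ^ 2) x0 := by simpa using hasDerivAt_pow 3 x0
    have h3 : HasDerivAt (fun x : ℝ => 1 + (lam - 1) * x ^ 2 - a * x + a * x ^ 3)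
        ((lam - 1) * (2 * x0) - a * 1 + a * (3 * x0 ^ 2)) x0 :=
      (((h1.const_mul (lam - 1)).const_add 1).sub ((hasDerivAt_id x0).const_mul a)).add
        (h2.const_mul a)
    convert h3 using 1
    · funext x; simp only [hR]; ring
    · ring
  exact hloc.hasDerivAt_eq_zero hd

/-- The constants of the problem together with the double root `x0`. -/
structure Par where
  lam : ℝ
  a : ℝ
  x0 : ℝ
  one_le : 1 ≤ lam
  lt_two : lam < 2
  x0_pos : 0 < x0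
  x0_lt : x0 < 1
  root : 1 + (lam - 1) * x0 ^ 2 - a * x0 * (1 - x0 ^ 2) = 0
  droot : 2 * (lam - 1) * x0 - a + 3 * a * x0 ^ 2 = 0

namespace Par

variable (p : Par)

/-- `β = a / (2 - λ)`. -/
noncomputable def be : ℝ := p.a / (2 - p.lam)

/-- `c = x0 / (1 - x0²)`. -/
noncomputable def c : ℝ := p.x0 / (1 - p.x0 ^ 2)

/-- the constant in the lower bound -/
noncomputable def c' : ℝ := 1 / (4 * p.c ^ 2 + 1)

lemma y0_pos : 0 < 1 - p.x0 ^ 2 := by
  have := p.x0_pos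
  have := p.x0_lt
  nlinarith

lemma c_pos : 0 < p.c := div_pos p.x0_pos p.y0_pos

lemma c'_pos : 0 < p.c' := by unfold c'; positivity

lemma c'_le_one : p.c' ≤ 1 := by
  unfold c'
  rw [div_le_one (by positivity)]
  nlinarith [sq_nonneg p.c]

lemma c'_c : p.c' * p.c ^ 2 * 4 ≤ 1 := by
  unfold c'
  rw [div_mul_eq_mul_div, div_mul_eq_mul_div, div_le_one (by positivity)]
  nlinarith [sq_nonneg p.c]

lemma a_ge : 1 ≤ p.a := by
  have h1 := p.root
  have h2 := p.x0_pos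
  have h3 := p.x0_lt
  have h4 := p.y0_pos
  have h5 : 0 ≤ (p.lam - 1) * p.x0 ^ 2 := mul_nonneg (by linarith [p.one_le]) (sq_nonneg _)
  have h6 : 1 ≤ p.a * (p.x0 * (1 - p.x0 ^ 2)) := by nlinarith
  have h7 : 0 < p.x0 * (1 - p.x0 ^ 2) := mul_pos h2 h4
  have h8 : p.x0 * (1 - p.x0 ^ 2) ≤ 1 := by nlinarith [mul_pos h2 (sq_pos_of_pos h2)]
  have h9 : 0 < p.a := by
    by_contra h
    push Not at h
    nlinarith
  nlinarith

lemma two_cc' : 2 * p.c' * p.c ≤ p.a := by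
  have h1 := p.a_ge
  have h2 : 2 * p.c' * p.c ≤ 1 := by
    unfold c'
    rw [show 2 * (1 / (4 * p.c ^ 2 + 1)) * p.c = 2 * p.c / (4 * p.c ^ 2 + 1) by ring,
      div_le_one (by positivity)]
    nlinarith [sq_nonneg (2 * p.c - 1)]
  linarith

lemma be_pos : 0 < p.be := div_pos (by linarith [p.a_ge]) (by linarith [p.lt_two])

lemma a_eq : p.a = (2 - p.lam) * p.be := by
  unfold be
  rw [mul_div_cancel₀]
  have := p.lt_two
  linarith

/-- The real inequality on the quarter disc. -/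
lemma real_ineq {x s : ℝ} (hx : 0 ≤ x) (hs : 0 ≤ s) (hxs : x ^ 2 + s ≤ 1) :
    p.c' * (x - p.c * s) ^ 2 ≤ p.lam * x ^ 2 + s - p.a * x * s := by
  have hx1 : x ≤ 1 := by nlinarith
  have hx0 := p.x0_pos
  have hy0 := p.y0_pos
  -- the end point `s = 1 - x²`
  have hend : p.c' * (x - p.c * (1 - x ^ 2)) ^ 2
      ≤ p.lam * x ^ 2 + (1 - x ^ 2) - p.a * x * (1 - x ^ 2) := by
    have h1 : p.lam * x ^ 2 + (1 - x ^ 2) - p.a * x * (1 - x ^ 2)
        = (x - p.x0) ^ 2 * (p.a * x + 1 / p.x0 ^ 2) := by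
      have hr := p.root
      have hd := p.droot
      field_simp
      linear_combination (x ^ 2 * p.x0 - x * p.x0 ^ 2) * hd + (2 * x * p.x0 - x ^ 2) * hr
    have h2 : x - p.c * (1 - x ^ 2) = p.c * (x - p.x0) * (x + 1 / p.x0) := by
      unfold c
      field_simp
      ring
    rw [h1, h2]
    have h3 : x + 1 / p.x0 ≤ 2 / p.x0 := by
      rw [le_div_iff₀ hx0, add_mul, div_mul_cancel₀ _ hx0.ne']
      have := p.x0_lt
      nlinarith
    have h4 : 0 ≤ x + 1 / p.x0 := by positivity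
    have h5 : (x + 1 / p.x0) ^ 2 ≤ 4 / p.x0 ^ 2 := by
      calc (x + 1 / p.x0) ^ 2 ≤ (2 / p.x0) ^ 2 := pow_le_pow_left₀ h4 h3 2
        _ = 4 / p.x0 ^ 2 := by rw [div_pow]; norm_num
    have h6 : p.c' * p.c ^ 2 * (x + 1 / p.x0) ^ 2 ≤ p.a * x + 1 / p.x0 ^ 2 := by
      have h7 : p.c' * p.c ^ 2 * (x + 1 / p.x0) ^ 2 ≤ p.c' * p.c ^ 2 * (4 / p.x0 ^ 2) :=
        mul_le_mul_of_nonneg_left h5 (mul_nonneg p.c'_pos.le (sq_nonneg _))
      have h8 : p.c' * p.c ^ 2 * (4 / p.x0 ^ 2) = (p.c' * p.c ^ 2 * 4) * (1 / p.x0 ^ 2) := by ring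
      have h9 : (p.c' * p.c ^ 2 * 4) * (1 / p.x0 ^ 2) ≤ 1 * (1 / p.x0 ^ 2) :=
        mul_le_mul_of_nonneg_right p.c'_c (by positivity)
      have h10 : 0 ≤ p.a * x := mul_nonneg (by linarith [p.a_ge]) hx
      linarith
    calc p.c' * (p.c * (x - p.x0) * (x + 1 / p.x0)) ^ 2
        = (x - p.x0) ^ 2 * (p.c' * p.c ^ 2 * (x + 1 / p.x0) ^ 2) := by ring
      _ ≤ _ := mul_le_mul_of_nonneg_left h6 (sq_nonneg _)
  -- the end point `s = 0`
  have hbeg : p.c' * x ^ 2 ≤ p.lam * x ^ 2 :=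
    mul_le_mul_of_nonneg_right (p.c'_le_one.trans p.one_le) (sq_nonneg _)
  rcases eq_or_lt_of_le (show (0 : ℝ) ≤ 1 - x ^ 2 by nlinarith) with h | h
  · have hs0 : s = 0 := by linarith
    subst hs0
    simpa using hbeg
  · set th := s / (1 - x ^ 2) with hth
    have hth0 : 0 ≤ th := div_nonneg hs h.le
    have hth1 : th ≤ 1 := by rw [hth, div_le_one h]; linarith
    have hsth : s = th * (1 - x ^ 2) := by rw [hth, div_mul_cancel₀ _ h.ne']
    have hconv : (x - p.c * s) ^ 2 ≤ (1 - th) * x ^ 2 + th * (x - p.c * (1 - x ^ 2)) ^ 2 := by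
      rw [hsth]
      have : (1 - th) * x ^ 2 + th * (x - p.c * (1 - x ^ 2)) ^ 2 - (x - p.c * (th * (1 - x ^ 2))) ^ 2
          = th * (1 - th) * (p.c * (1 - x ^ 2)) ^ 2 := by ring
      have h2 : 0 ≤ th * (1 - th) * (p.c * (1 - x ^ 2)) ^ 2 :=
        mul_nonneg (mul_nonneg hth0 (by linarith)) (sq_nonneg _)
      linarith
    have h3 := mul_le_mul_of_nonneg_left hconv p.c'_pos.le
    have h4 := mul_le_mul_of_nonneg_left hend hth0
    have h5 := mul_le_mul_of_nonneg_left hbeg (show (0 : ℝ) ≤ 1 - th by linarith)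
    have h6 : p.lam * x ^ 2 + s - p.a * x * s = (1 - th) * (p.lam * x ^ 2)
        + th * (p.lam * x ^ 2 + (1 - x ^ 2) - p.a * x * (1 - x ^ 2)) := by rw [hsth]; ring
    rw [h6]
    nlinarith

/-! ### The complex inequality -/

/-- `q(w) = w₁ - c w₂²`. -/
noncomputable def q (w : ℂ × ℂ) : ℂ := w.1 - p.c * w.2 ^ 2

/-- `Q(w) = λ |w₁|² + |w₂|² - a Re (w₂² conj w₁)`. -/
noncomputable def Q (w : ℂ × ℂ) : ℝ :=
  p.lam * ‖w.1‖ ^ 2 + ‖w.2‖ ^ 2 - p.a * (w.2 ^ 2 * (starRingEnd ℂ) w.1).re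

lemma re_le (w : ℂ × ℂ) : (w.2 ^ 2 * (starRingEnd ℂ) w.1).re ≤ ‖w.1‖ * ‖w.2‖ ^ 2 := by
  calc _ ≤ ‖w.2 ^ 2 * (starRingEnd ℂ) w.1‖ := Complex.re_le_norm _
    _ = _ := by rw [norm_mul, norm_pow, RCLike.norm_conj]; ring

lemma Q_ge {w : ℂ × ℂ} (hw : ‖w.1‖ ^ 2 + ‖w.2‖ ^ 2 ≤ 1) : p.c' * ‖p.q w‖ ^ 2 ≤ p.Q w := by
  have h1 := p.real_ineq (norm_nonneg w.1) (sq_nonneg ‖w.2‖) hw
  set r := (w.2 ^ 2 * (starRingEnd ℂ) w.1).re with hr
  have h2 : r ≤ ‖w.1‖ * ‖w.2‖ ^ 2 := re_le w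
  have h3 : ‖p.q w‖ ^ 2 = ‖w.1‖ ^ 2 + p.c ^ 2 * (‖w.2‖ ^ 2) ^ 2 - 2 * p.c * r := by
    unfold q
    rw [Complex.sq_norm, Complex.normSq_sub, Complex.normSq_mul, Complex.normSq_ofReal,
      ← Complex.sq_norm, ← Complex.sq_norm, norm_pow]
    have h4 : (w.1 * (starRingEnd ℂ) (p.c * w.2 ^ 2)).re = p.c * r := by
      have h5 : (w.1 * (starRingEnd ℂ) (p.c * w.2 ^ 2))
          = p.c * (starRingEnd ℂ) (w.2 ^ 2 * (starRingEnd ℂ) w.1) := by
        rw [map_mul, map_mul, Complex.conj_ofReal, Complex.conj_conj]; ring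
      rw [h5, Complex.re_ofReal_mul, Complex.conj_re]
    rw [h4]; ring
  have h6 : p.Q w = p.lam * ‖w.1‖ ^ 2 + ‖w.2‖ ^ 2 - p.a * r := rfl
  rw [h3, h6]
  have h7 := mul_nonneg (sub_nonneg.2 p.two_cc') (sub_nonneg.2 h2)
  nlinarith

lemma Q_pos {w : ℂ × ℂ} (hw : ‖w.1‖ ^ 2 + ‖w.2‖ ^ 2 < 1) (hw0 : w ≠ 0) : 0 < p.Q w := by
  set r := (w.2 ^ 2 * (starRingEnd ℂ) w.1).re with hr
  have h6 : p.Q w = p.lam * ‖w.1‖ ^ 2 + ‖w.2‖ ^ 2 - p.a * r := rfl
  have hN : 0 < ‖w.1‖ ^ 2 + ‖w.2‖ ^ 2 := by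
    by_contra h
    push Not at h
    apply hw0
    have h1 : ‖w.1‖ = 0 := by nlinarith [sq_nonneg ‖w.1‖, sq_nonneg ‖w.2‖]
    have h2 : ‖w.2‖ = 0 := by nlinarith [sq_nonneg ‖w.1‖, sq_nonneg ‖w.2‖]
    exact Prod.ext (norm_eq_zero.1 h1) (norm_eq_zero.1 h2)
  have hL : 0 < p.lam * ‖w.1‖ ^ 2 + ‖w.2‖ ^ 2 := by
    have := mul_le_mul_of_nonneg_right p.one_le (sq_nonneg ‖w.1‖)
    linarith
  rcases le_or_gt r 0 with h | h
  · have := mul_nonneg (show (0:ℝ) ≤ p.a by linarith [p.a_ge]) (neg_nonneg.2 h)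
    rw [h6]; nlinarith
  · set ρ := Real.sqrt (‖w.1‖ ^ 2 + ‖w.2‖ ^ 2) with hρ
    have hρ0 : 0 < ρ := Real.sqrt_pos.2 hN
    have hρsq : ρ ^ 2 = ‖w.1‖ ^ 2 + ‖w.2‖ ^ 2 := Real.sq_sqrt hN.le
    have hρ1 : ρ < 1 := by nlinarith
    -- the rescaled point
    let u : ℂ × ℂ := ((ρ⁻¹ : ℝ) * w.1, (ρ⁻¹ : ℝ) * w.2)
    have hu1 : ‖u.1‖ = ρ⁻¹ * ‖w.1‖ := by
      show ‖((ρ⁻¹ : ℝ) : ℂ) * w.1‖ = _
      rw [norm_mul, Complex.norm_real, Real.norm_of_nonneg (inv_nonneg.2 hρ0.le)]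
    have hu2 : ‖u.2‖ = ρ⁻¹ * ‖w.2‖ := by
      show ‖((ρ⁻¹ : ℝ) : ℂ) * w.2‖ = _
      rw [norm_mul, Complex.norm_real, Real.norm_of_nonneg (inv_nonneg.2 hρ0.le)]
    have hu : ‖u.1‖ ^ 2 + ‖u.2‖ ^ 2 ≤ 1 := by
      rw [hu1, hu2, mul_pow, mul_pow, ← mul_add, ← hρsq, inv_pow, inv_mul_cancel₀ (by positivity)]
    have h7 := (mul_nonneg p.c'_pos.le (sq_nonneg _)).trans (p.Q_ge hu)
    have h8 : p.Q u = ρ⁻¹ ^ 2 * (p.lam * ‖w.1‖ ^ 2 + ‖w.2‖ ^ 2) - p.a * (ρ⁻¹ ^ 3 * r) := by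
      unfold Q
      rw [hu1, hu2]
      have h9 : u.2 ^ 2 * (starRingEnd ℂ) u.1
          = ((ρ⁻¹ ^ 3 : ℝ) : ℂ) * (w.2 ^ 2 * (starRingEnd ℂ) w.1) := by
        show (((ρ⁻¹ : ℝ) : ℂ) * w.2) ^ 2 * (starRingEnd ℂ) (((ρ⁻¹ : ℝ) : ℂ) * w.1) = _
        rw [map_mul, Complex.conj_ofReal]
        push_cast
        ring
      rw [h9, Complex.re_ofReal_mul]
      ring
    rw [h8] at h7
    have h10 : 0 ≤ ρ ^ 3 * (ρ⁻¹ ^ 2 * (p.lam * ‖w.1‖ ^ 2 + ‖w.2‖ ^ 2) - p.a * (ρ⁻¹ ^ 3 * r)) :=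
      mul_nonneg (by positivity) h7
    have h11 : ρ ^ 3 * (ρ⁻¹ ^ 2 * (p.lam * ‖w.1‖ ^ 2 + ‖w.2‖ ^ 2) - p.a * (ρ⁻¹ ^ 3 * r))
        = ρ * (p.lam * ‖w.1‖ ^ 2 + ‖w.2‖ ^ 2) - p.a * r := by
      field_simp
    rw [h11] at h10
    rw [h6]
    nlinarith

/-! ### The perturbed field -/

/-- `F₁(w) = w₁ + β w₂²`. -/
noncomputable def F1 (w : ℂ × ℂ) : ℂ := w.1 + p.be * w.2 ^ 2

/-- `κ = β + c`. -/
noncomputable def ka : ℝ := p.be + p.c

/-- The bound `L = 1 + κ`. -/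
noncomputable def L : ℝ := 1 + p.ka

noncomputable def K (w : ℂ × ℂ) : ℂ := p.F1 w / p.lam - 2 * p.ka * w.2 ^ 2 / (p.lam + 2)

/-- `G = ∫ q(v_s)² ds` along the flow of the unperturbed field. -/
noncomputable def G (w : ℂ × ℂ) : ℂ :=
  p.F1 w ^ 2 / (2 * p.lam) - 2 * p.ka * p.F1 w * w.2 ^ 2 / (p.lam + 2) + p.ka ^ 2 * w.2 ^ 4 / 4

/-- The first component of the perturbed field. -/
noncomputable def h1 (η : ℝ) (w : ℂ × ℂ) (t : ℝ) : ℂ :=
  p.lam * w.1 - p.a * w.2 ^ 2 + η * p.q w ^ 2 / (exp (p.lam * t) - η * p.K w)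

lemma ka_pos : 0 < p.ka := add_pos p.be_pos p.c_pos

lemma L_ge : 1 ≤ p.L := by unfold L; linarith [p.ka_pos]

/-- The admissible sizes of `η`. -/
def Small (η : ℝ) : Prop := |η| ≤ p.c' / 4 ∧ |η| * (100 * p.L ^ 2) ≤ 1

lemma small_L {η : ℝ} (h : p.Small η) : |η| * p.L ≤ 1 / 100 := by
  have h1 := h.2
  have h2 := p.L_ge
  have h3 : |η| * p.L ≤ |η| * p.L ^ 2 := mul_le_mul_of_nonneg_left (by nlinarith) (abs_nonneg _)
  nlinarith

lemma norm_F1 {w : ℂ × ℂ} (h1 : ‖w.1‖ ≤ 1) (h2 : ‖w.2‖ ≤ 1) : ‖p.F1 w‖ ≤ p.L := by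
  unfold F1 L ka
  have hb := p.be_pos
  have hc := p.c_pos
  calc ‖w.1 + p.be * w.2 ^ 2‖ ≤ ‖w.1‖ + ‖(p.be : ℂ) * w.2 ^ 2‖ := norm_add_le _ _
    _ = ‖w.1‖ + p.be * ‖w.2‖ ^ 2 := by
        rw [norm_mul, norm_pow, Complex.norm_real, Real.norm_of_nonneg hb.le]
    _ ≤ 1 + p.be * 1 := by
        apply add_le_add h1 (mul_le_mul_of_nonneg_left _ hb.le)
        exact pow_le_one₀ (norm_nonneg _) h2
    _ ≤ _ := by linarith

lemma lam_pos : 0 < p.lam := by linarith [p.one_le]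

lemma norm_lam2 : ‖(p.lam : ℂ) + 2‖ = p.lam + 2 := by
  have : ((p.lam : ℂ) + 2) = ((p.lam + 2 : ℝ) : ℂ) := by push_cast; ring
  rw [this, Complex.norm_real, Real.norm_of_nonneg (by linarith [p.one_le])]

lemma norm_lam : ‖(p.lam : ℂ)‖ = p.lam := by
  rw [Complex.norm_real, Real.norm_of_nonneg p.lam_pos.le]

lemma norm_ka : ‖(p.ka : ℂ)‖ = p.ka := by
  rw [Complex.norm_real, Real.norm_of_nonneg p.ka_pos.le]

lemma norm_K {w : ℂ × ℂ} (h1 : ‖w.1‖ ≤ 1) (h2 : ‖w.2‖ ≤ 1) : ‖p.K w‖ ≤ 2 * p.L := by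
  have hF := p.norm_F1 h1 h2
  have hl := p.one_le
  have hk := p.ka_pos
  unfold K
  calc _ ≤ ‖p.F1 w / p.lam‖ + ‖2 * (p.ka : ℂ) * w.2 ^ 2 / (p.lam + 2)‖ := norm_sub_le _ _
    _ = ‖p.F1 w‖ / p.lam + 2 * p.ka * ‖w.2‖ ^ 2 / (p.lam + 2) := by
        rw [norm_div, norm_div, norm_mul, norm_mul, norm_pow, p.norm_lam, p.norm_lam2, p.norm_ka]
        norm_num
    _ ≤ p.L + p.ka := by
        apply add_le_add
        · rw [div_le_iff₀ p.lam_pos]
          nlinarith [norm_nonneg (p.F1 w), p.L_ge]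
        · rw [div_le_iff₀ (by linarith)]
          have : ‖w.2‖ ^ 2 ≤ 1 := pow_le_one₀ (norm_nonneg _) h2
          nlinarith
    _ ≤ _ := by unfold L; linarith

lemma norm_G {w : ℂ × ℂ} (h1 : ‖w.1‖ ≤ 1) (h2 : ‖w.2‖ ≤ 1) : ‖p.G w‖ ≤ 2 * p.L ^ 2 := by
  have hF := p.norm_F1 h1 h2
  have hl := p.one_le
  have hk := p.ka_pos
  have hL := p.L_ge
  have hw2 : ‖w.2‖ ^ 2 ≤ 1 := pow_le_one₀ (norm_nonneg _) h2
  have hw4 : ‖w.2‖ ^ 4 ≤ 1 := pow_le_one₀ (norm_nonneg _) h2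
  have hkL : p.ka ≤ p.L := by unfold L; linarith
  unfold G
  calc _ ≤ ‖p.F1 w ^ 2 / (2 * p.lam)‖ + ‖2 * (p.ka : ℂ) * p.F1 w * w.2 ^ 2 / (p.lam + 2)‖
        + ‖(p.ka : ℂ) ^ 2 * w.2 ^ 4 / 4‖ :=
        (norm_add_le _ _).trans (add_le_add_left (norm_sub_le _ _) _)
    _ = ‖p.F1 w‖ ^ 2 / (2 * p.lam) + 2 * p.ka * ‖p.F1 w‖ * ‖w.2‖ ^ 2 / (p.lam + 2)
        + p.ka ^ 2 * ‖w.2‖ ^ 4 / 4 := by
        rw [norm_div, norm_div, norm_div, norm_mul, norm_mul, norm_mul, norm_mul, norm_mul,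
          norm_pow, norm_pow, norm_pow, norm_pow, p.norm_lam, p.norm_lam2, p.norm_ka]
        norm_num
    _ ≤ p.L ^ 2 / 2 + p.L ^ 2 + p.L ^ 2 / 4 := by
        have hF2 : ‖p.F1 w‖ ^ 2 ≤ p.L ^ 2 := pow_le_pow_left₀ (norm_nonneg _) hF 2
        apply add_le_add (add_le_add _ _) _
        · rw [div_le_div_iff₀ (by linarith) (by norm_num)]
          nlinarith [sq_nonneg p.L]
        · rw [div_le_iff₀ (by linarith)]
          have e1 : p.ka * ‖p.F1 w‖ ≤ p.L * p.L :=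
            mul_le_mul hkL hF (norm_nonneg _) (by linarith)
          have e2 : p.ka * ‖p.F1 w‖ * ‖w.2‖ ^ 2 ≤ p.L * p.L * 1 :=
            mul_le_mul e1 hw2 (sq_nonneg _) (by positivity)
          nlinarith [mul_pos (show (0:ℝ) < p.L by linarith) (show (0:ℝ) < p.L by linarith)]
        · have e1 : p.ka ^ 2 ≤ p.L ^ 2 := pow_le_pow_left₀ hk.le hkL 2
          have e2 : p.ka ^ 2 * ‖w.2‖ ^ 4 ≤ p.L ^ 2 * 1 :=
            mul_le_mul e1 hw4 (by positivity) (by positivity)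
          linarith
    _ ≤ _ := by nlinarith

lemma ball_le {w : ℂ × ℂ} (hw : ‖w.1‖ ^ 2 + ‖w.2‖ ^ 2 ≤ 1) : ‖w.1‖ ≤ 1 ∧ ‖w.2‖ ≤ 1 := by
  constructor
  · nlinarith [norm_nonneg w.1, sq_nonneg ‖w.2‖]
  · nlinarith [norm_nonneg w.2, sq_nonneg ‖w.1‖]

lemma norm_exp_lam (t : ℝ) : ‖exp ((p.lam : ℂ) * t)‖ = Real.exp (p.lam * t) := by
  rw [Complex.norm_exp]
  congr 1
  rw [← Complex.ofReal_mul, Complex.ofReal_re]

lemma den_bound {η : ℝ} (hη : p.Small η) {w : ℂ × ℂ} (hw : ‖w.1‖ ^ 2 + ‖w.2‖ ^ 2 ≤ 1) {t : ℝ}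
    (ht : 0 ≤ t) : 1 / 2 ≤ ‖exp ((p.lam : ℂ) * t) - η * p.K w‖ := by
  obtain ⟨h1, h2⟩ := ball_le hw
  have hK := p.norm_K h1 h2
  have hs := p.small_L hη
  have h3 : ‖(η : ℂ) * p.K w‖ ≤ 1 / 50 := by
    rw [norm_mul, Complex.norm_real, Real.norm_eq_abs]
    calc |η| * ‖p.K w‖ ≤ |η| * (2 * p.L) := mul_le_mul_of_nonneg_left hK (abs_nonneg _)
      _ ≤ 1 / 50 := by linarith
  have h4 : 1 ≤ ‖exp ((p.lam : ℂ) * t)‖ := by
    rw [p.norm_exp_lam]
    exact Real.one_le_exp (mul_nonneg p.lam_pos.le ht)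
  have h5 := norm_sub_norm_le (exp ((p.lam : ℂ) * t)) (η * p.K w)
  linarith

lemma field_re {η : ℝ} (hη : p.Small η) {w : ℂ × ℂ} (hw : ‖w.1‖ ^ 2 + ‖w.2‖ ^ 2 ≤ 1) {t : ℝ}
    (ht : 0 ≤ t) :
    p.Q w / 2 ≤ (p.h1 η w t * (starRingEnd ℂ) w.1).re + ‖w.2‖ ^ 2 := by
  obtain ⟨hw1, hw2⟩ := ball_le hw
  have hQ := p.Q_ge hw
  set δ : ℂ := η * p.q w ^ 2 / (exp (p.lam * t) - η * p.K w) with hδ
  have h1 : ‖δ‖ ≤ 2 * |η| * ‖p.q w‖ ^ 2 := by
    have hd := p.den_bound hη hw ht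
    rw [hδ, norm_div, norm_mul, norm_pow, Complex.norm_real, Real.norm_eq_abs,
      div_le_iff₀ (by linarith)]
    have : 0 ≤ |η| * ‖p.q w‖ ^ 2 := by positivity
    nlinarith
  have h2 : ‖δ‖ ≤ p.Q w / 2 := by
    refine h1.trans ?_
    have h3 : 2 * |η| * ‖p.q w‖ ^ 2 ≤ 2 * (p.c' / 4) * ‖p.q w‖ ^ 2 := by
      apply mul_le_mul_of_nonneg_right _ (sq_nonneg _)
      linarith [hη.1]
    linarith
  have h4 : (p.h1 η w t * (starRingEnd ℂ) w.1).re + ‖w.2‖ ^ 2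
      = p.Q w + (δ * (starRingEnd ℂ) w.1).re := by
    unfold Par.h1 Par.Q
    rw [← hδ, add_mul, sub_mul, Complex.add_re, Complex.sub_re]
    have e1 : ((p.lam : ℂ) * w.1 * (starRingEnd ℂ) w.1).re = p.lam * ‖w.1‖ ^ 2 := by
      rw [mul_assoc, Complex.mul_conj, Complex.re_ofReal_mul, Complex.ofReal_re, Complex.sq_norm]
    have e2 : ((p.a : ℂ) * w.2 ^ 2 * (starRingEnd ℂ) w.1).re
        = p.a * (w.2 ^ 2 * (starRingEnd ℂ) w.1).re := by
      rw [mul_assoc, Complex.re_ofReal_mul]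
    rw [e1, e2]; ring
  have h5 : -‖δ‖ ≤ (δ * (starRingEnd ℂ) w.1).re := by
    have h6 : |(δ * (starRingEnd ℂ) w.1).re| ≤ ‖δ‖ := by
      refine (Complex.abs_re_le_norm _).trans ?_
      rw [norm_mul, RCLike.norm_conj]
      exact mul_le_of_le_one_right (norm_nonneg _) hw1
    exact (abs_le.1 h6).1
  rw [h4]
  linarith

/-! ### The flow -/

/-- `e^{-λ t}` -/
noncomputable def X (t : ℝ) : ℂ := exp (-(p.lam : ℂ) * t)

/-- `e^{-t}` -/
noncomputable def Y (t : ℝ) : ℂ := exp (-1 * (t : ℂ))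

noncomputable def bb (η : ℝ) (z : ℂ × ℂ) (t : ℝ) : ℂ :=
  2 * η * p.ka / (p.lam + 2) * (p.X t * Y t ^ 2) * z.2 ^ 2

noncomputable def gam (η : ℝ) (z : ℂ × ℂ) (t : ℝ) : ℂ := η * p.ka ^ 2 / 4 * Y t ^ 4 * z.2 ^ 4

noncomputable def g1 (η : ℝ) (z : ℂ × ℂ) : ℂ := p.F1 z - η * p.G z

noncomputable def mm (η : ℝ) (z : ℂ × ℂ) (t : ℝ) : ℂ := p.gam η z t + p.g1 η z

noncomputable def al (η : ℝ) (t : ℝ) : ℂ := η / (2 * p.lam) * p.X t ^ 2

noncomputable def DD (η : ℝ) (z : ℂ × ℂ) (t : ℝ) : ℂ :=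
  (1 + p.bb η z t) ^ 2 - 4 * p.al η t * p.mm η z t

noncomputable def SS (η : ℝ) (z : ℂ × ℂ) (t : ℝ) : ℂ := exp (log (p.DD η z t) / 2)

noncomputable def ZZ (η : ℝ) (z : ℂ × ℂ) (t : ℝ) : ℂ :=
  (1 + p.bb η z t - p.SS η z t) / (2 * p.al η t)

/-- The flow. -/
noncomputable def vv (η : ℝ) (z : ℂ × ℂ) (t : ℝ) : ℂ × ℂ :=
  (p.X t * p.ZZ η z t - p.be * Y t ^ 2 * z.2 ^ 2, Y t * z.2)

lemma norm_X (t : ℝ) : ‖p.X t‖ = Real.exp (-p.lam * t) := by
  unfold X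
  rw [Complex.norm_exp]
  congr 1
  rw [← Complex.ofReal_neg, ← Complex.ofReal_mul, Complex.ofReal_re]

lemma norm_Y (t : ℝ) : ‖Y t‖ = Real.exp (-t) := by
  unfold Y
  rw [Complex.norm_exp]
  congr 1
  simp

lemma X_ne (t : ℝ) : p.X t ≠ 0 := exp_ne_zero _

lemma Y_ne (t : ℝ) : Y t ≠ 0 := exp_ne_zero _

lemma X_inv (t : ℝ) : exp ((p.lam : ℂ) * t) = (p.X t)⁻¹ := by
  unfold X
  rw [neg_mul, Complex.exp_neg, inv_inv]

lemma X_zero : p.X 0 = 1 := by simp [X]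

lemma Y_zero : Y 0 = 1 := by simp [Y]

lemma norm_X_le {t : ℝ} (ht : 0 ≤ t) : ‖p.X t‖ ≤ 1 := by
  rw [p.norm_X]
  apply Real.exp_le_one_iff.2
  have := mul_nonneg p.lam_pos.le ht
  linarith

lemma norm_Y_le {t : ℝ} (ht : 0 ≤ t) : ‖Y t‖ ≤ 1 := by
  rw [norm_Y]
  apply Real.exp_le_one_iff.2
  linarith

lemma lam_ne : (p.lam : ℂ) ≠ 0 := by
  exact_mod_cast p.lam_pos.ne'

lemma lam2_ne : (p.lam : ℂ) + 2 ≠ 0 := by
  have h : p.lam + 2 ≠ 0 := by linarith [p.one_le]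
  exact_mod_cast h

lemma al_ne {η : ℝ} (hη0 : η ≠ 0) (t : ℝ) : p.al η t ≠ 0 := by
  unfold al
  have h1 : (η : ℂ) ≠ 0 := by exact_mod_cast hη0
  have h2 := p.lam_ne
  have h3 := p.X_ne t
  exact mul_ne_zero (div_ne_zero h1 (mul_ne_zero two_ne_zero h2)) (pow_ne_zero 2 h3)

/-! #### Bounds -/

variable {p}

section Bounds

variable {η : ℝ} (hη : p.Small η) {z : ℂ × ℂ} (hz : ‖z.1‖ ^ 2 + ‖z.2‖ ^ 2 ≤ 1) {t : ℝ}
  (ht : 0 ≤ t)

include hz ht

lemma norm_bb : ‖p.bb η z t‖ ≤ |η| * p.L * (‖p.X t‖ * ‖Y t‖ ^ 2) := by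
  obtain ⟨h1, h2⟩ := ball_le hz
  have hk := p.ka_pos
  have hl := p.one_le
  unfold bb
  rw [norm_mul, norm_mul, norm_div, norm_mul, norm_mul, norm_mul, norm_pow, norm_pow,
    Complex.norm_real, Real.norm_eq_abs, p.norm_ka, p.norm_lam2]
  have e1 : ‖(2 : ℂ)‖ * |η| * p.ka / (p.lam + 2) ≤ |η| * p.L := by
    rw [div_le_iff₀ (by linarith)]
    have : ‖(2 : ℂ)‖ = 2 := by norm_num
    rw [this]
    have h3 : 0 ≤ |η| := abs_nonneg _
    have h4 : p.ka ≤ p.L := by unfold L; linarith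
    have h5 : |η| * p.ka ≤ |η| * p.L := mul_le_mul_of_nonneg_left h4 h3
    have h6 : 0 ≤ |η| * p.L := mul_nonneg h3 (by linarith [p.L_ge])
    nlinarith
  have e2 : ‖z.2‖ ^ 2 ≤ 1 := pow_le_one₀ (norm_nonneg _) h2
  have e3 : 0 ≤ ‖p.X t‖ * ‖Y t‖ ^ 2 := by positivity
  have e4 : 0 ≤ |η| * p.L := mul_nonneg (abs_nonneg _) (by linarith [p.L_ge])
  calc _ ≤ |η| * p.L * (‖p.X t‖ * ‖Y t‖ ^ 2) * 1 := by
        apply mul_le_mul (mul_le_mul_of_nonneg_right e1 e3) e2 (by positivity) (by positivity)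
    _ = _ := mul_one _

omit hz ht in
lemma norm_al' : ‖p.al η t‖ ≤ |η| * ‖p.X t‖ ^ 2 := by
  have hl := p.one_le
  unfold al
  rw [norm_mul, norm_div, norm_mul, norm_pow, Complex.norm_real, Real.norm_eq_abs, p.norm_lam]
  apply mul_le_mul_of_nonneg_right _ (sq_nonneg _)
  have : ‖(2 : ℂ)‖ = 2 := by norm_num
  rw [this, div_le_iff₀ (by linarith)]
  nlinarith [abs_nonneg η]

lemma norm_gam : ‖p.gam η z t‖ ≤ |η| * p.L ^ 2 * ‖Y t‖ ^ 4 := by
  obtain ⟨h1, h2⟩ := ball_le hz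
  have hk := p.ka_pos
  unfold gam
  rw [norm_mul, norm_mul, norm_div, norm_mul, norm_pow, norm_pow, norm_pow,
    Complex.norm_real, Real.norm_eq_abs, p.norm_ka]
  have e1 : ‖(4 : ℂ)‖ = 4 := by norm_num
  have h4 : p.ka ≤ p.L := by unfold L; linarith
  have h5 : p.ka ^ 2 ≤ p.L ^ 2 := pow_le_pow_left₀ hk.le h4 2
  have e2 : |η| * p.ka ^ 2 / ‖(4 : ℂ)‖ ≤ |η| * p.L ^ 2 := by
    rw [e1, div_le_iff₀ (by norm_num)]
    have : |η| * p.ka ^ 2 ≤ |η| * p.L ^ 2 := mul_le_mul_of_nonneg_left h5 (abs_nonneg _)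
    have : 0 ≤ |η| * p.L ^ 2 := by positivity
    linarith
  have e3 : ‖z.2‖ ^ 4 ≤ 1 := pow_le_one₀ (norm_nonneg _) h2
  calc _ ≤ |η| * p.L ^ 2 * ‖Y t‖ ^ 4 * 1 := by
        apply mul_le_mul (mul_le_mul_of_nonneg_right e2 (by positivity)) e3 (by positivity)
          (by positivity)
    _ = _ := mul_one _

include hη

lemma norm_bb_small : ‖p.bb η z t‖ ≤ 1 / 100 := by
  refine (norm_bb hz ht).trans ?_
  have h1 := p.norm_X_le ht
  have h2 := norm_Y_le ht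
  have h3 : ‖p.X t‖ * ‖Y t‖ ^ 2 ≤ 1 :=
    mul_le_one₀ h1 (by positivity) (pow_le_one₀ (norm_nonneg _) h2)
  have h4 := p.small_L hη
  have h5 : 0 ≤ |η| * p.L := mul_nonneg (abs_nonneg _) (by linarith [p.L_ge])
  calc _ ≤ |η| * p.L * 1 := mul_le_mul_of_nonneg_left h3 h5
    _ ≤ _ := by linarith

lemma norm_mm : ‖p.mm η z t‖ ≤ 2 * p.L := by
  obtain ⟨h1, h2⟩ := ball_le hz
  have hG := p.norm_G h1 h2
  have hF := p.norm_F1 h1 h2
  have hg := norm_gam (p := p) (η := η) hz ht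
  have hY : ‖Y t‖ ^ 4 ≤ 1 := pow_le_one₀ (norm_nonneg _) (norm_Y_le ht)
  have hL := p.L_ge
  have hs := hη.2
  have e1 : |η| * p.L ^ 2 * ‖Y t‖ ^ 4 ≤ |η| * p.L ^ 2 :=
    mul_le_of_le_one_right (by positivity) hY
  have e2 : ‖(η : ℂ) * p.G z‖ ≤ |η| * (2 * p.L ^ 2) := by
    rw [norm_mul, Complex.norm_real, Real.norm_eq_abs]
    exact mul_le_mul_of_nonneg_left hG (abs_nonneg _)
  unfold mm g1
  calc _ ≤ ‖p.gam η z t‖ + (‖p.F1 z‖ + ‖(η : ℂ) * p.G z‖) :=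
        (norm_add_le _ _).trans (add_le_add_right (norm_sub_le _ _) _)
    _ ≤ |η| * p.L ^ 2 + (p.L + |η| * (2 * p.L ^ 2)) := by
        apply add_le_add (hg.trans e1) (add_le_add hF e2)
    _ ≤ _ := by nlinarith

lemma norm_DD : ‖p.DD η z t - 1‖ ≤ 1 / 4 := by
  have hb := norm_bb_small hη hz ht
  have hm := norm_mm hη hz ht
  have ha := norm_al' (p := p) (η := η) (t := t)
  have hX := p.norm_X_le ht
  have hs := p.small_L hη
  have ha2 : ‖p.al η t‖ ≤ |η| := by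
    refine ha.trans ?_
    exact mul_le_of_le_one_right (abs_nonneg _) (pow_le_one₀ (norm_nonneg _) hX)
  have h1 : p.DD η z t - 1 = 2 * p.bb η z t + p.bb η z t ^ 2 - 4 * p.al η t * p.mm η z t := by
    unfold DD; ring
  rw [h1]
  calc _ ≤ ‖2 * p.bb η z t‖ + ‖p.bb η z t ^ 2‖ + ‖4 * p.al η t * p.mm η z t‖ :=
        (norm_sub_le _ _).trans (add_le_add_left (norm_add_le _ _) _)
    _ = 2 * ‖p.bb η z t‖ + ‖p.bb η z t‖ ^ 2 + 4 * ‖p.al η t‖ * ‖p.mm η z t‖ := by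
        rw [norm_mul, norm_mul, norm_mul, norm_pow]; norm_num
    _ ≤ 2 * (1 / 100) + (1 / 100) ^ 2 + 4 * |η| * (2 * p.L) := by
        apply add_le_add (add_le_add _ _) _
        · linarith
        · exact pow_le_pow_left₀ (norm_nonneg _) hb 2
        · apply mul_le_mul _ hm (norm_nonneg _) (by positivity)
          linarith
    _ ≤ _ := by nlinarith

lemma DD_slit : p.DD η z t ∈ slitPlane := by
  have h := norm_DD hη hz ht
  left
  have h1 : |(p.DD η z t - 1).re| ≤ 1 / 4 := (Complex.abs_re_le_norm _).trans h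
  rw [Complex.sub_re, Complex.one_re, abs_le] at h1
  linarith [h1.1]

lemma SS_sq : p.SS η z t ^ 2 = p.DD η z t := by
  unfold SS
  rw [← Complex.exp_nat_mul]
  have : ((2 : ℕ) : ℂ) * (log (p.DD η z t) / 2) = log (p.DD η z t) := by push_cast; ring
  rw [this, Complex.exp_log (slitPlane_ne_zero (DD_slit hη hz ht))]

omit hη hz ht in
lemma re_exp_log_half {D : ℂ} (hD : D ∈ slitPlane) : 0 < (exp (log D / 2)).re := by
  rw [Complex.exp_re]
  apply mul_pos (Real.exp_pos _)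
  apply Real.cos_pos_of_mem_Ioo
  have h1 : (log D / 2).im = arg D / 2 := by
    rw [show log D / 2 = log D / ((2 : ℝ) : ℂ) by push_cast; ring, Complex.div_ofReal_im,
      Complex.log_im]
  rw [h1]
  have h2 := Complex.neg_pi_lt_arg D
  have h3 : arg D < Real.pi := by
    rcases lt_or_eq_of_le (Complex.arg_le_pi D) with h | h
    · exact h
    · exact absurd h (Complex.mem_slitPlane_iff_arg.1 hD).1
  constructor <;> linarith

lemma SS_re : 0 < (p.SS η z t).re := re_exp_log_half (DD_slit hη hz ht)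

lemma SS_ne : p.SS η z t ≠ 0 := exp_ne_zero _

lemma quad (hη0 : η ≠ 0) : (1 + p.bb η z t) * p.ZZ η z t - p.al η t * p.ZZ η z t ^ 2
    = p.mm η z t := by
  have h1 := SS_sq hη hz ht
  have h2 := p.al_ne hη0 t
  have h3 : 2 * p.al η t * p.ZZ η z t = 1 + p.bb η z t - p.SS η z t := by
    unfold ZZ; field_simp
  have h4 : p.SS η z t = 1 + p.bb η z t - 2 * p.al η t * p.ZZ η z t := by rw [h3]; ring
  rw [h4] at h1
  unfold DD at h1
  have h5 : 4 * p.al η t * ((1 + p.bb η z t) * p.ZZ η z t - p.al η t * p.ZZ η z t ^ 2)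
      = 4 * p.al η t * p.mm η z t := by linear_combination -h1
  exact mul_left_cancel₀ (mul_ne_zero (by norm_num) h2) h5

lemma norm_ZZ (hη0 : η ≠ 0) : ‖p.ZZ η z t‖ ≤ 8 * p.L := by
  have h1 := quad hη hz ht hη0
  have h2 := p.al_ne hη0 t
  have h3 : 2 * p.al η t * p.ZZ η z t = 1 + p.bb η z t - p.SS η z t := by
    unfold ZZ; field_simp
  have h4 : p.ZZ η z t * (1 + p.bb η z t + p.SS η z t) = 2 * p.mm η z t := by
    rw [← h1]
    linear_combination p.ZZ η z t * h3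
  have hb := norm_bb_small hη hz ht
  have hS := SS_re hη hz ht
  have hre : 1 / 2 ≤ (1 + p.bb η z t + p.SS η z t).re := by
    rw [Complex.add_re, Complex.add_re, Complex.one_re]
    have := (abs_le.1 (Complex.abs_re_le_norm (p.bb η z t))).1
    linarith
  have hn : 1 / 2 ≤ ‖1 + p.bb η z t + p.SS η z t‖ := hre.trans (Complex.re_le_norm _)
  have h5 := congrArg norm h4
  rw [norm_mul, norm_mul] at h5
  have hm := norm_mm hη hz ht
  have h6 : ‖(2 : ℂ)‖ = 2 := by norm_num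
  rw [h6] at h5
  have h7 := mul_le_mul_of_nonneg_left hn (norm_nonneg (p.ZZ η z t))
  linarith

end Bounds

/-! #### Derivatives -/

lemma hasDerivAt_X (t : ℝ) : HasDerivAt p.X (-p.lam * p.X t) t := by
  have h1 : HasDerivAt (fun t : ℝ => -(p.lam : ℂ) * (t : ℂ)) (-(p.lam : ℂ) * 1) t :=
    (hasDerivAt_id t).ofReal_comp.const_mul _
  have h2 := h1.cexp
  rw [mul_one, mul_comm] at h2
  exact h2

lemma hasDerivAt_Y (t : ℝ) : HasDerivAt Y (-Y t) t := by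
  have h1 : HasDerivAt (fun t : ℝ => -1 * (t : ℂ)) (-1 * 1) t :=
    (hasDerivAt_id t).ofReal_comp.const_mul _
  have h2 := h1.cexp
  rw [mul_one, mul_comm, neg_one_mul] at h2
  exact h2

lemma hasDerivAt_bb (η : ℝ) (z : ℂ × ℂ) (t : ℝ) :
    HasDerivAt (p.bb η z) (-(p.lam + 2) * p.bb η z t) t := by
  have h1 := (((hasDerivAt_X (p := p) t).mul ((hasDerivAt_Y t).pow 2)).const_mul
    (2 * (η : ℂ) * p.ka / (p.lam + 2))).mul_const (z.2 ^ 2)
  refine HasDerivAt.congr_deriv (f := p.bb η z) h1 ?_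
  unfold bb
  simp only [Pi.pow_apply, Nat.cast_ofNat, Nat.add_one_sub_one, pow_one]
  ring

lemma hasDerivAt_gam (η : ℝ) (z : ℂ × ℂ) (t : ℝ) :
    HasDerivAt (p.gam η z) (-4 * p.gam η z t) t := by
  have h1 := (((hasDerivAt_Y t).pow 4).const_mul ((η : ℂ) * p.ka ^ 2 / 4)).mul_const (z.2 ^ 4)
  refine HasDerivAt.congr_deriv (f := p.gam η z) h1 ?_
  unfold gam
  simp only [Nat.cast_ofNat, Nat.add_one_sub_one]
  ring

lemma hasDerivAt_al (η : ℝ) (t : ℝ) : HasDerivAt (p.al η) (-2 * p.lam * p.al η t) t := by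
  have h1 := ((hasDerivAt_X (p := p) t).pow 2).const_mul ((η : ℂ) / (2 * p.lam))
  refine HasDerivAt.congr_deriv (f := p.al η) h1 ?_
  unfold al
  simp only [Nat.cast_ofNat, Nat.add_one_sub_one, pow_one]
  ring

lemma hasDerivAt_mm (η : ℝ) (z : ℂ × ℂ) (t : ℝ) :
    HasDerivAt (p.mm η z) (-4 * p.gam η z t) t :=
  (hasDerivAt_gam η z t).add_const _

lemma hasDerivAt_DD (η : ℝ) (z : ℂ × ℂ) (t : ℝ) :
    HasDerivAt (p.DD η z) (-2 * (p.lam + 2) * p.bb η z t * (1 + p.bb η z t)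
      + 8 * p.lam * p.al η t * p.mm η z t + 16 * p.al η t * p.gam η z t) t := by
  have h1 := (((hasDerivAt_bb (p := p) η z t).const_add 1).pow 2).sub
    (((hasDerivAt_al (p := p) η t).const_mul 4).mul (hasDerivAt_mm (p := p) η z t))
  refine HasDerivAt.congr_deriv (f := p.DD η z) h1 ?_
  simp only [Nat.cast_ofNat, Nat.add_one_sub_one, pow_one]
  ring

/-- The algebra behind the derivative of `Z`. -/
lemma alg {l A B S m Γ : ℂ} (hA : A ≠ 0) (hS : S ≠ 0) (h : S ^ 2 = (1 + B) ^ 2 - 4 * A * m) :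
    ((-(l + 2) * B - (-2 * (l + 2) * B * (1 + B) + 8 * l * A * m + 16 * A * Γ) / (2 * S)) * (2 * A)
      - (1 + B - S) * (2 * (-2 * l * A))) / (2 * A) ^ 2
    = -(2 * l * A * ((1 + B - S) / (2 * A)) ^ 2 - (l + 2) * B * ((1 + B - S) / (2 * A)) + 4 * Γ)
      / S := by
  field_simp
  linear_combination (-2 * l) * h

variable {η : ℝ} (hη : p.Small η) (hη0 : η ≠ 0) {z : ℂ × ℂ} (hz : ‖z.1‖ ^ 2 + ‖z.2‖ ^ 2 ≤ 1) {t : ℝ}
  (ht : 0 ≤ t)

include hη hz ht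

lemma hasDerivAt_SS : HasDerivAt (p.SS η z)
    ((-2 * (p.lam + 2) * p.bb η z t * (1 + p.bb η z t)
      + 8 * p.lam * p.al η t * p.mm η z t + 16 * p.al η t * p.gam η z t) / (2 * p.SS η z t)) t := by
  have h1 := (((hasDerivAt_DD (p := p) η z t).clog_real (DD_slit hη hz ht)).div_const 2).cexp
  have h2 := SS_sq hη hz ht
  have h3 : p.SS η z t ≠ 0 := SS_ne hη hz ht
  refine HasDerivAt.congr_deriv (f := p.SS η z) h1 ?_
  rw [← h2]
  have h4 : cexp (log (p.SS η z t ^ 2) / 2) = p.SS η z t := by rw [h2]; rfl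
  rw [h4]
  field_simp

include hη0

lemma hasDerivAt_ZZ : HasDerivAt (p.ZZ η z)
    (-(2 * p.lam * p.al η t * p.ZZ η z t ^ 2 - (p.lam + 2) * p.bb η z t * p.ZZ η z t
      + 4 * p.gam η z t) / p.SS η z t) t := by
  have hal := p.al_ne hη0 t
  have hS : p.SS η z t ≠ 0 := SS_ne hη hz ht
  have h1 := (((hasDerivAt_bb (p := p) η z t).const_add 1).sub (hasDerivAt_SS hη hz ht)).div
    ((hasDerivAt_al (p := p) η t).const_mul 2) (mul_ne_zero two_ne_zero hal)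
  refine HasDerivAt.congr_deriv (f := p.ZZ η z) h1 ?_
  exact alg hal hS (SS_sq hη hz ht)

omit hη hz ht hη0 in
lemma F1_vv (η : ℝ) (z : ℂ × ℂ) (t : ℝ) : p.F1 (p.vv η z t) = p.X t * p.ZZ η z t := by
  unfold F1 vv
  ring

omit hη hz ht in
lemma den_vv : (p.X t)⁻¹ - η * p.K (p.vv η z t) = (p.X t)⁻¹ * p.SS η z t := by
  have hal := p.al_ne hη0 t
  have hX := p.X_ne t
  have h3 : 2 * p.al η t * p.ZZ η z t = 1 + p.bb η z t - p.SS η z t := by
    unfold ZZ; field_simp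
  have h4 : p.SS η z t = 1 + p.bb η z t - 2 * p.al η t * p.ZZ η z t := by rw [h3]; ring
  rw [h4]
  unfold K
  rw [F1_vv]
  unfold vv bb al
  have hl := p.lam_ne
  have hl2 := p.lam2_ne
  field_simp
  ring

omit hη hz ht hη0 in
lemma q_vv (η : ℝ) (z : ℂ × ℂ) (t : ℝ) : η * p.q (p.vv η z t) ^ 2
    = 2 * p.lam * p.al η t * p.ZZ η z t ^ 2 - (p.lam + 2) * p.bb η z t * p.ZZ η z t
      + 4 * p.gam η z t := by
  unfold q vv bb al gam ka
  have hl := p.lam_ne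
  have hl2 := p.lam2_ne
  push_cast
  field_simp
  ring

lemma hasDerivAt_vv : HasDerivAt (p.vv η z) (-p.h1 η (p.vv η z t) t, -(p.vv η z t).2) t := by
  have hX := p.X_ne t
  have hS : p.SS η z t ≠ 0 := SS_ne hη hz ht
  have h1 : HasDerivAt (fun t => p.X t * p.ZZ η z t - p.be * Y t ^ 2 * z.2 ^ 2)
      (-p.lam * p.X t * p.ZZ η z t + p.X t * (-(2 * p.lam * p.al η t * p.ZZ η z t ^ 2
        - (p.lam + 2) * p.bb η z t * p.ZZ η z t + 4 * p.gam η z t) / p.SS η z t)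
        - p.be * (2 * Y t * (-Y t)) * z.2 ^ 2) t := by
    have h2 := ((hasDerivAt_X (p := p) t).mul (hasDerivAt_ZZ hη hη0 hz ht)).sub
      ((((hasDerivAt_Y t).pow 2).const_mul (p.be : ℂ)).mul_const (z.2 ^ 2))
    refine HasDerivAt.congr_deriv (f := fun t => p.X t * p.ZZ η z t - p.be * Y t ^ 2 * z.2 ^ 2)
      h2 ?_
    simp only [Nat.cast_ofNat, Nat.add_one_sub_one, pow_one]
  have h2 : HasDerivAt (fun t => Y t * z.2) (-(Y t) * z.2) t := (hasDerivAt_Y t).mul_const _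
  have h3 := h1.prodMk h2
  refine HasDerivAt.congr_deriv (f := p.vv η z) h3 ?_
  symm
  apply Prod.ext
  · show -p.h1 η (p.vv η z t) t = _
    unfold Par.h1
    rw [X_inv, den_vv hη0, q_vv]
    have h4 : (p.a : ℂ) = (2 - p.lam) * p.be := by
      have := p.a_eq
      rw [this]; push_cast; ring
    rw [h4]
    unfold vv
    field_simp
    ring
  · show -(Y t * z.2) = -(Y t) * z.2
    ring

omit hη hη0 hz ht

/-! #### The initial value -/

lemma vv_zero {η : ℝ} (hη : p.Small η) (hη0 : η ≠ 0) {z : ℂ × ℂ}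
    (hz : ‖z.1‖ ^ 2 + ‖z.2‖ ^ 2 ≤ 1) : p.vv η z 0 = z := by
  have h1 := SS_sq hη hz le_rfl
  have hre := SS_re hη hz le_rfl
  have hal := p.al_ne hη0 0
  set u := 1 + p.bb η z 0 - 2 * p.al η 0 * p.F1 z with hu
  have hDD : p.DD η z 0 = u ^ 2 := by
    rw [hu]
    unfold DD mm g1 gam bb al G
    rw [X_zero, Y_zero]
    have hl := p.lam_ne
    have hl2 := p.lam2_ne
    field_simp
    ring
  have hure : 0 < u.re := by
    obtain ⟨z1, z2⟩ := ball_le hz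
    have hb := norm_bb_small hη hz le_rfl
    have ha := norm_al' (p := p) (η := η) (t := 0)
    rw [X_zero, norm_one, one_pow, mul_one] at ha
    have hF := p.norm_F1 z1 z2
    have hs := p.small_L hη
    have h2 : ‖2 * p.al η 0 * p.F1 z‖ ≤ 1 / 50 := by
      rw [norm_mul, norm_mul]
      have : ‖(2 : ℂ)‖ = 2 := by norm_num
      rw [this]
      have h3 : ‖p.al η 0‖ * ‖p.F1 z‖ ≤ |η| * p.L :=
        mul_le_mul ha hF (norm_nonneg _) (abs_nonneg _)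
      nlinarith
    have h4 := (abs_le.1 ((Complex.abs_re_le_norm _).trans hb)).1
    have h5 := (abs_le.1 ((Complex.abs_re_le_norm _).trans h2)).2
    rw [hu, Complex.sub_re, Complex.add_re, Complex.one_re]
    linarith
  have hSu : p.SS η z 0 = u := by
    rw [hDD] at h1
    rcases sq_eq_sq_iff_eq_or_eq_neg.1 h1 with h | h
    · exact h
    · rw [h, Complex.neg_re] at hre
      linarith
  have hZ : p.ZZ η z 0 = p.F1 z := by
    unfold ZZ
    rw [hSu, hu]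
    field_simp
    ring
  unfold vv
  rw [hZ, X_zero, Y_zero]
  apply Prod.ext
  · unfold F1; simp
  · simp

/-! #### The flow stays in the ball -/

lemma mem_ball {η : ℝ} (hη : p.Small η) (hη0 : η ≠ 0) {z : ℂ × ℂ} (hz : z ∈ Ball) {t : ℝ}
    (ht : 0 ≤ t) : p.vv η z t ∈ Ball := by
  have hz' : ‖z.1‖ ^ 2 + ‖z.2‖ ^ 2 ≤ 1 := le_of_lt hz
  set φ : ℝ → ℝ := fun t => ‖(p.vv η z t).1‖ ^ 2 + ‖(p.vv η z t).2‖ ^ 2 with hφ
  have hd : ∀ s : ℝ, 0 ≤ s → HasDerivAt φ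
      (-2 * ((p.h1 η (p.vv η z s) s * (starRingEnd ℂ) (p.vv η z s).1).re
        + ‖(p.vv η z s).2‖ ^ 2)) s := by
    intro s hs
    have h1 := hasDerivAt_vv hη hη0 hz' hs
    have h2 : HasDerivAt (fun t => (p.vv η z t).1) (-p.h1 η (p.vv η z s) s) s := h1.fst
    have h3 : HasDerivAt (fun t => (p.vv η z t).2) (-(p.vv η z s).2) s := h1.snd
    have h4 := h2.norm_sq.add h3.norm_sq
    refine HasDerivAt.congr_deriv h4 ?_
    rw [Complex.inner, Complex.inner]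
    have e1 : ((starRingEnd ℂ) (p.vv η z s).2 * -(p.vv η z s).2).re = -‖(p.vv η z s).2‖ ^ 2 := by
      rw [mul_neg, ← Complex.normSq_eq_conj_mul_self, Complex.neg_re, Complex.ofReal_re,
        Complex.sq_norm]
    have e2 : ((starRingEnd ℂ) (p.vv η z s).1 * -p.h1 η (p.vv η z s) s).re
        = -(p.h1 η (p.vv η z s) s * (starRingEnd ℂ) (p.vv η z s).1).re := by
      rw [mul_neg, Complex.neg_re, mul_comm]
    simp only [mul_comm ((starRingEnd ℂ) (p.vv η z s).2), mul_comm ((starRingEnd ℂ) (p.vv η z s).1)] at *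
    rw [e1, e2]; ring
  have hneg : ∀ s : ℝ, 0 ≤ s → φ s ≤ 1 → 
      -2 * ((p.h1 η (p.vv η z s) s * (starRingEnd ℂ) (p.vv η z s).1).re
        + ‖(p.vv η z s).2‖ ^ 2) ≤ 0 := by
    intro s hs h1
    have h2 := p.field_re hη h1 hs
    have h3 := (mul_nonneg p.c'_pos.le (sq_nonneg _)).trans (p.Q_ge h1)
    linarith
  by_contra hcon
  have hT : 1 ≤ φ t := not_lt.1 hcon
  have hcont : ContinuousOn φ (Set.Icc 0 t) := fun s hs => (hd s hs.1).continuousAt.continuousWithinAt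
  set E : Set ℝ := Set.Icc 0 t ∩ φ ⁻¹' Set.Ici 1 with hE
  have hEc : IsClosed E := hcont.preimage_isClosed_of_isClosed isClosed_Icc isClosed_Ici
  have hEn : E.Nonempty := ⟨t, ⟨ht, le_rfl⟩, hT⟩
  have hEb : BddBelow E := ⟨0, fun s hs => hs.1.1⟩
  have hs := hEc.csInf_mem hEn hEb
  set s := sInf E with hsdef
  have hlt : ∀ r ∈ Set.Ioo 0 s, φ r < 1 := by
    intro r hr
    by_contra h
    push Not at h
    have : r ∈ E := ⟨⟨hr.1.le, hr.2.le.trans hs.1.2⟩, h⟩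
    exact absurd (csInf_le hEb this) (not_le.2 hr.2)
  have hanti : AntitoneOn φ (Set.Icc 0 s) := by
    apply antitoneOn_of_deriv_nonpos (convex_Icc 0 s)
    · exact fun r hr => (hd r hr.1).continuousAt.continuousWithinAt
    · intro r hr
      rw [interior_Icc] at hr
      exact (hd r hr.1.le).differentiableAt.differentiableWithinAt
    · intro r hr
      rw [interior_Icc] at hr
      rw [(hd r hr.1.le).deriv]
      exact hneg r hr.1.le (hlt r hr).le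
  have h1 := hanti ⟨le_rfl, hs.1.1⟩ ⟨hs.1.1, le_rfl⟩ hs.1.1
  have h2 : φ 0 < 1 := by
    show ‖(p.vv η z 0).1‖ ^ 2 + ‖(p.vv η z 0).2‖ ^ 2 < 1
    rw [vv_zero hη hη0 hz']
    exact hz
  have h3 : 1 ≤ φ s := hs.2
  linarith

/-- The perturbed vector field. -/
noncomputable def hh (p : Par) (η : ℝ) (w : ℂ × ℂ) (t : ℝ) : ℂ × ℂ := (p.h1 η w t, w.2)

lemma solution {η : ℝ} (hη : p.Small η) (hη0 : η ≠ 0) : IsSolution (p.hh η) (p.vv η) := by
  intro z hz t ht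
  have hz' : ‖z.1‖ ^ 2 + ‖z.2‖ ^ 2 ≤ 1 := le_of_lt hz
  refine ⟨mem_ball hη hη0 hz ht, ?_⟩
  have hd : ∀ s : ℝ, 0 ≤ s → HasDerivAt (p.vv η z) (-p.hh η (p.vv η z s) s) s :=
    fun s hs => hasDerivAt_vv hη hη0 hz' hs
  have hvc : ContinuousOn (p.vv η z) (Set.uIcc 0 t) := by
    rw [Set.uIcc_of_le ht]
    exact fun s hs => (hd s hs.1).continuousAt.continuousWithinAt
  have hcont : ContinuousOn (fun s => p.hh η (p.vv η z s) s) (Set.uIcc 0 t) := by
    have hv1 : ContinuousOn (fun s => (p.vv η z s).1) (Set.uIcc 0 t) := continuous_fst.comp_continuousOn hvc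
    have hv2 : ContinuousOn (fun s => (p.vv η z s).2) (Set.uIcc 0 t) := continuous_snd.comp_continuousOn hvc
    have hexp : ContinuousOn (fun s : ℝ => exp ((p.lam : ℂ) * s)) (Set.uIcc 0 t) := by
      apply Continuous.continuousOn
      exact Complex.continuous_exp.comp (continuous_const.mul Complex.continuous_ofReal)
    apply ContinuousOn.prodMk _ hv2
    unfold Par.h1 q K F1
    apply ContinuousOn.add
    · fun_prop
    · apply ContinuousOn.div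
      · fun_prop
      · fun_prop
      · intro s hs
        rw [Set.uIcc_of_le ht] at hs
        have h1 := p.den_bound hη (le_of_lt (mem_ball hη hη0 hz hs.1)) hs.1
        intro h2
        have h3 : exp ((p.lam : ℂ) * s) - η * p.K (p.vv η z s) = 0 := h2
        rw [h3, norm_zero] at h1
        norm_num at h1
  have hint := hcont.intervalIntegrable (μ := MeasureTheory.volume)
  refine ⟨hint, ?_⟩
  have h1 := intervalIntegral.integral_eq_sub_of_hasDerivAt (f := p.vv η z)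
    (f' := fun s => -p.hh η (p.vv η z s) s) (a := 0) (b := t)
    (fun s hs => by rw [Set.uIcc_of_le ht] at hs; exact hd s hs.1) hint.neg
  rw [intervalIntegral.integral_neg, vv_zero hη hη0 hz'] at h1
  have h2 : (∫ s in (0 : ℝ)..t, p.hh η (p.vv η z s) s) = -(p.vv η z t - z) := by
    rw [← h1, neg_neg]
  rw [h2]
  abel

/-! #### The field is in `N_A` -/

lemma hasFDerivAt_mul_zero {u v : ℂ × ℂ → ℂ} (hu : DifferentiableAt ℂ u 0)
    (hv : DifferentiableAt ℂ v 0) (hu0 : u 0 = 0) (hv0 : v 0 = 0) :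
    HasFDerivAt (fun w => u w * v w) (0 : ℂ × ℂ →L[ℂ] ℂ) 0 := by
  have h := hu.hasFDerivAt.mul hv.hasFDerivAt
  refine h.congr_fderiv ?_
  apply ContinuousLinearMap.ext
  intro w
  show u 0 * (fderiv ℂ v 0) w + v 0 * (fderiv ℂ u 0) w = 0
  rw [hu0, hv0]
  ring

lemma hasFDerivAt_quad (r : ℂ) : HasFDerivAt (fun w : ℂ × ℂ => r * w.2 ^ 2) (0 : ℂ × ℂ →L[ℂ] ℂ) 0 := by
  have h := hasFDerivAt_mul_zero (u := fun w : ℂ × ℂ => r * w.2) (v := fun w : ℂ × ℂ => w.2)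
    (by fun_prop) (by fun_prop) (by simp) (by simp)
  refine h.congr_of_eventuallyEq (Filter.Eventually.of_forall fun w => ?_)
  ring

lemma differentiable_F1 : Differentiable ℂ p.F1 := by unfold F1; fun_prop

lemma differentiable_q : Differentiable ℂ p.q := by unfold q; fun_prop

lemma differentiable_K : Differentiable ℂ p.K := by
  have := p.differentiable_F1
  unfold K
  fun_prop

lemma differentiable_G : Differentiable ℂ p.G := by
  have := p.differentiable_F1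
  unfold G
  fun_prop

lemma F1_zero : p.F1 0 = 0 := by simp [F1]

lemma q_zero : p.q 0 = 0 := by simp [q]

lemma G_zero : p.G 0 = 0 := by simp [G, F1_zero]

lemma hasFDerivAt_G : HasFDerivAt p.G (0 : ℂ × ℂ →L[ℂ] ℂ) 0 := by
  have hF := p.differentiable_F1
  have h1 := hasFDerivAt_mul_zero (u := p.F1) (v := fun w => p.F1 w / (2 * p.lam)
    - 2 * p.ka * w.2 ^ 2 / (p.lam + 2)) (hF 0) (by fun_prop) p.F1_zero (by simp [p.F1_zero])
  have h2 := hasFDerivAt_mul_zero (u := fun w : ℂ × ℂ => w.2)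
    (v := fun w : ℂ × ℂ => (p.ka : ℂ) ^ 2 * w.2 ^ 3 / 4) (by fun_prop) (by fun_prop) (by simp)
    (by simp)
  have h3 := h1.add h2
  rw [add_zero] at h3
  refine h3.congr_of_eventuallyEq (Filter.Eventually.of_forall fun w => ?_)
  unfold G
  simp only [Pi.add_apply]
  ring

lemma hasFDerivAt_F1 : HasFDerivAt p.F1 (ContinuousLinearMap.fst ℂ ℂ ℂ) 0 := by
  have h := (hasFDerivAt_fst (𝕜 := ℂ) (E := ℂ) (F := ℂ) (p := 0)).add (hasFDerivAt_quad (p.be : ℂ))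
  rw [add_zero] at h
  exact h

lemma inN {η : ℝ} (hη : p.Small η) {t : ℝ} (ht : 0 ≤ t) : InN p.lam (fun z => p.hh η z t) := by
  have hden : ∀ z ∈ Ball, exp ((p.lam : ℂ) * t) - η * p.K z ≠ 0 := by
    intro z hz h
    have h1 := p.den_bound hη (le_of_lt hz) ht
    rw [h, norm_zero] at h1
    norm_num at h1
  have hK := p.differentiable_K
  have hq := p.differentiable_q
  have h0 : (0 : ℂ × ℂ) ∈ Ball := by simp [Ball]
  refine ⟨?_, ?_, ?_, ?_⟩
  · apply DifferentiableOn.prodMk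
    · unfold Par.h1
      apply DifferentiableOn.add (by fun_prop)
      simp only [div_eq_mul_inv]
      apply DifferentiableOn.mul
      · exact ((differentiable_const _).mul (hq.pow 2)).differentiableOn
      · exact DifferentiableOn.inv
          ((differentiable_const _).sub ((differentiable_const _).mul hK)).differentiableOn hden
    · fun_prop
  · unfold hh Par.h1
    rw [q_zero]
    simp
  · have hv : DifferentiableAt ℂ (fun w => (η : ℂ) * p.q w / (exp ((p.lam : ℂ) * t) - η * p.K w)) 0 := by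
      simp only [div_eq_mul_inv]
      apply DifferentiableAt.mul
      · exact (differentiableAt_const _).mul (hq 0)
      · exact DifferentiableAt.inv
          ((differentiableAt_const _).sub ((differentiableAt_const _).mul (hK 0))) (hden 0 h0)
    have h1 := hasFDerivAt_mul_zero (hq 0) hv p.q_zero (by simp [p.q_zero])
    have h2 := hasFDerivAt_quad (p.a : ℂ)
    have h3 := (hasFDerivAt_fst (𝕜 := ℂ) (E := ℂ) (F := ℂ) (p := 0)).const_mul (p.lam : ℂ)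
    have h4 := (h3.sub h2).add h1
    rw [sub_zero, add_zero] at h4
    have h5 : HasFDerivAt (fun w => p.h1 η w t) ((p.lam : ℂ) • ContinuousLinearMap.fst ℂ ℂ ℂ) 0 := by
      refine h4.congr_of_eventuallyEq (Filter.Eventually.of_forall fun w => ?_)
      unfold Par.h1
      simp only [Pi.add_apply, Pi.sub_apply]
      ring
    exact h5.prodMk hasFDerivAt_snd
  · intro z hz hz0
    have h1 := p.field_re hη (le_of_lt hz) ht
    have h2 := p.Q_pos hz hz0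
    unfold dot hh
    simp only
    rw [Complex.add_re, Complex.mul_conj, Complex.ofReal_re, ← Complex.sq_norm]
    linarith

lemma herglotz {η : ℝ} (hη : p.Small η) : IsHerglotz p.lam (p.hh η) := by
  refine ⟨Filter.Eventually.of_forall fun t ht => inN hη ht, fun z _ => ?_⟩
  unfold hh Par.h1
  apply Measurable.prodMk _ measurable_const
  apply Measurable.add measurable_const
  apply Measurable.div measurable_const
  apply Measurable.sub _ measurable_const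
  exact (Complex.continuous_exp.comp (continuous_const.mul Complex.continuous_ofReal)).measurable

/-! #### The limit -/

/-- The perturbed maps. -/
noncomputable def gg (p : Par) (η : ℝ) (z : ℂ × ℂ) : ℂ × ℂ := (p.g1 η z, z.2)

lemma limit_bound {η : ℝ} (hη : p.Small η) (hη0 : η ≠ 0) {z : ℂ × ℂ}
    (hz : ‖z.1‖ ^ 2 + ‖z.2‖ ^ 2 ≤ 1) {t : ℝ} (ht : 0 ≤ t) :
    dist (p.gg η z) (expA p.lam t (p.vv η z t)) ≤ (1 + p.L) * Real.exp (-((2 - p.lam) * t)) := by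
  obtain ⟨hz1, hz2⟩ := ball_le hz
  have hX := p.X_ne t
  have hY := Y_ne t
  have hL := p.L_ge
  have hl1 := p.one_le
  have hl2 := p.lt_two
  have e1 : expA p.lam t (p.vv η z t)
      = (p.ZZ η z t - p.be * ((p.X t)⁻¹ * Y t ^ 2) * z.2 ^ 2, z.2) := by
    unfold expA
    rw [X_inv]
    have hYi : exp (t : ℂ) = (Y t)⁻¹ := by
      unfold Y
      rw [← Complex.exp_neg]; congr 1; ring
    rw [hYi]
    unfold vv
    apply Prod.ext
    · simp only; field_simp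
    · simp only; field_simp
  rw [e1]
  unfold gg
  rw [Prod.dist_eq]
  simp only [dist_self]
  have hexp : 0 < Real.exp (-((2 - p.lam) * t)) := Real.exp_pos _
  apply max_le _ (by positivity)
  rw [dist_eq_norm]
  have hq := quad hη hz ht hη0
  have hZ := norm_ZZ hη hz ht hη0
  have e2 : p.g1 η z - (p.ZZ η z t - p.be * ((p.X t)⁻¹ * Y t ^ 2) * z.2 ^ 2)
      = p.bb η z t * p.ZZ η z t - p.al η t * p.ZZ η z t ^ 2 - p.gam η z t
        + p.be * ((p.X t)⁻¹ * Y t ^ 2) * z.2 ^ 2 := by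
    have : p.g1 η z = p.mm η z t - p.gam η z t := by unfold mm; ring
    rw [this, ← hq]; ring
  rw [e2]
  have hbb := norm_bb (p := p) (η := η) hz ht
  have hal := norm_al' (p := p) (η := η) (t := t)
  have hgam := norm_gam (p := p) (η := η) hz ht
  -- exponential bounds
  set E := Real.exp (-((2 - p.lam) * t)) with hE
  have x1 : ‖p.X t‖ * ‖Y t‖ ^ 2 ≤ E := by
    rw [p.norm_X, norm_Y, ← Real.exp_nat_mul, ← Real.exp_add]
    apply Real.exp_le_exp.2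
    push_cast
    nlinarith
  have x2 : ‖p.X t‖ ^ 2 ≤ E := by
    rw [p.norm_X, ← Real.exp_nat_mul]
    apply Real.exp_le_exp.2
    push_cast
    nlinarith
  have x3 : ‖Y t‖ ^ 4 ≤ E := by
    rw [norm_Y, ← Real.exp_nat_mul]
    apply Real.exp_le_exp.2
    push_cast
    nlinarith
  have x4 : ‖p.X t‖⁻¹ * ‖Y t‖ ^ 2 = E := by
    rw [p.norm_X, norm_Y, ← Real.exp_nat_mul, ← Real.exp_neg, ← Real.exp_add, hE]
    congr 1
    push_cast
    ring
  have hηnn : 0 ≤ |η| := abs_nonneg _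
  have b1 : ‖p.bb η z t * p.ZZ η z t‖ ≤ |η| * p.L * E * (8 * p.L) := by
    rw [norm_mul]
    apply mul_le_mul (hbb.trans (mul_le_mul_of_nonneg_left x1 (by positivity))) hZ (norm_nonneg _)
      (by positivity)
  have b2 : ‖p.al η t * p.ZZ η z t ^ 2‖ ≤ |η| * E * (8 * p.L) ^ 2 := by
    rw [norm_mul, norm_pow]
    apply mul_le_mul (hal.trans (mul_le_mul_of_nonneg_left x2 hηnn))
      (pow_le_pow_left₀ (norm_nonneg _) hZ 2) (by positivity) (by positivity)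
  have b3 : ‖p.gam η z t‖ ≤ |η| * p.L ^ 2 * E :=
    hgam.trans (mul_le_mul_of_nonneg_left x3 (by positivity))
  have b4 : ‖(p.be : ℂ) * ((p.X t)⁻¹ * Y t ^ 2) * z.2 ^ 2‖ ≤ p.L * E := by
    rw [norm_mul, norm_mul, norm_mul, norm_inv, norm_pow, norm_pow, x4, Complex.norm_real,
      Real.norm_of_nonneg p.be_pos.le]
    have h1 : p.be ≤ p.L := by
      unfold L ka; linarith [p.c_pos]
    have h2 : ‖z.2‖ ^ 2 ≤ 1 := pow_le_one₀ (norm_nonneg _) hz2
    calc p.be * E * ‖z.2‖ ^ 2 ≤ p.L * E * 1 :=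
          mul_le_mul (mul_le_mul_of_nonneg_right h1 hexp.le) h2 (sq_nonneg _) (by positivity)
      _ = _ := mul_one _
  have h100 := hη.2
  have hfin : |η| * p.L * E * (8 * p.L) + |η| * E * (8 * p.L) ^ 2 + |η| * p.L ^ 2 * E ≤ E := by
    have : |η| * p.L * E * (8 * p.L) + |η| * E * (8 * p.L) ^ 2 + |η| * p.L ^ 2 * E
        = (|η| * (73 * p.L ^ 2)) * E := by ring
    rw [this]
    have h2 : |η| * (73 * p.L ^ 2) ≤ 1 := by nlinarith [mul_nonneg hηnn (sq_nonneg p.L)]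
    calc _ ≤ 1 * E := mul_le_mul_of_nonneg_right h2 hexp.le
      _ = E := one_mul _
  calc _ ≤ ‖p.bb η z t * p.ZZ η z t‖ + ‖p.al η t * p.ZZ η z t ^ 2‖ + ‖p.gam η z t‖
        + ‖(p.be : ℂ) * ((p.X t)⁻¹ * Y t ^ 2) * z.2 ^ 2‖ := by
        refine (norm_add_le _ _).trans (add_le_add_left ?_ _)
        refine (norm_sub_le _ _).trans (add_le_add_left ?_ _)
        exact norm_sub_le _ _
    _ ≤ _ := by linarith

lemma mem_SA {η : ℝ} (hη : p.Small η) (hη0 : η ≠ 0) : p.gg η ∈ SA p.lam := by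
  have hF := p.differentiable_F1
  have hG := p.differentiable_G
  refine ⟨?_, ?_, ?_, p.hh η, p.vv η, herglotz hη, solution hη hη0, ?_⟩
  · apply Differentiable.differentiableOn
    unfold gg g1
    fun_prop
  · unfold gg g1
    rw [F1_zero, G_zero]; simp
  · have h1 := p.hasFDerivAt_F1.sub (p.hasFDerivAt_G.const_mul (η : ℂ))
    have h2 : HasFDerivAt (p.g1 η) (ContinuousLinearMap.fst ℂ ℂ ℂ) 0 := by
      refine HasFDerivAt.congr_fderiv (f := p.g1 η) h1 ?_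
      apply ContinuousLinearMap.ext
      intro w
      show w.1 - (η : ℂ) * 0 = w.1
      ring
    have h3 := h2.prodMk (hasFDerivAt_snd (𝕜 := ℂ) (E := ℂ) (F := ℂ) (p := 0))
    exact h3
  · apply TendstoUniformlyOn.tendstoLocallyUniformlyOn
    rw [Metric.tendstoUniformlyOn_iff]
    intro ε hε
    have hl : 0 < 2 - p.lam := by linarith [p.lt_two]
    have htend : Filter.Tendsto (fun t : ℝ => (1 + p.L) * Real.exp (-((2 - p.lam) * t)))
        Filter.atTop (nhds ((1 + p.L) * 0)) := by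
      apply Filter.Tendsto.const_mul
      exact Real.tendsto_exp_neg_atTop_nhds_zero.comp (Filter.tendsto_id.const_mul_atTop hl)
    rw [mul_zero] at htend
    filter_upwards [htend.eventually_lt_const hε, Filter.eventually_ge_atTop 0] with t h1 h2 z hz
    exact lt_of_le_of_lt (limit_bound hη hη0 (le_of_lt hz) h2) h1

end Par

/-- The maximum `a₀` in the definition of `F` exists. -/
lemma exists_max {lam : ℝ} (h1 : 1 ≤ lam) : ∃ a0, IsGreatest (Admissible lam) a0 := by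
  have hone : (1 : ℝ) ∈ Admissible lam := by
    refine ⟨one_pos, fun x y hx hy hxy => ?_⟩
    have hx1 : x ≤ 1 := by nlinarith [sq_nonneg y]
    nlinarith [sq_nonneg x, mul_nonneg (sub_nonneg.2 hx1) (sq_nonneg y)]
  have hbdd : ∀ a ∈ Admissible lam, a ≤ 8 * (lam + 1) := by
    intro a ha
    have h := ha.2 (1 / 2) (1 / 2) (by norm_num) (by norm_num) (by norm_num)
    norm_num at h
    linarith
  have hB : BddAbove (Admissible lam) := ⟨_, hbdd⟩
  refine ⟨sSup (Admissible lam), ⟨lt_of_lt_of_le one_pos (le_csSup hB hone), ?_⟩,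
    fun a ha => le_csSup hB ha⟩
  intro x y hx hy hxy
  rcases eq_or_lt_of_le (mul_nonneg hx (sq_nonneg y)) with h | h
  · have : sSup (Admissible lam) * x * y ^ 2 = 0 := by rw [mul_assoc, ← h, mul_zero]
    rw [this]
    nlinarith [sq_nonneg x, sq_nonneg y]
  · have hle : sSup (Admissible lam) ≤ (lam * x ^ 2 + y ^ 2) / (x * y ^ 2) := by
      apply csSup_le ⟨1, hone⟩
      intro a ha
      rw [le_div_iff₀ h]
      have := ha.2 x y hx hy hxy
      linarith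
    rw [le_div_iff₀ h] at hle
    linarith

/-- **Main theorem.** For every `λ ∈ [1, 2)`, the number `a₀` exists and the map `F` is the midpoint
of two elements of `S_A^0(𝔹²)` that are different from `F` on the ball. In particular `F` is not an
extreme point. -/
theorem result (lam : ℝ) (h1 : 1 ≤ lam) (h2 : lam < 2) :
    (∃ a0, IsGreatest (Admissible lam) a0) ∧ ∀ a0, IsGreatest (Admissible lam) a0 →
    ∃ g ∈ SA lam, ∃ k ∈ SA lam, (∃ z ∈ Ball, g z ≠ F lam a0 z) ∧ (∃ z ∈ Ball, k z ≠ F lam a0 z) ∧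
      ∀ z ∈ Ball, F lam a0 z = (1 / 2 : ℂ) • g z + (1 / 2 : ℂ) • k z := by
  refine ⟨exists_max h1, fun a0 ha => ?_⟩
  obtain ⟨x0, hx0, hx1, hr, hd⟩ := exists_x0 h1 ha
  let p : Par := ⟨lam, a0, x0, h1, h2, hx0, hx1, hr, hd⟩
  set η := min (p.c' / 4) (1 / (100 * p.L ^ 2)) with hη
  have hL := p.L_ge
  have hpos : 0 < η := lt_min (by have := p.c'_pos; positivity) (by positivity)
  have hs : p.Small η := by
    constructor
    · rw [abs_of_pos hpos]; exact min_le_left _ _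
    · rw [abs_of_pos hpos]
      calc η * (100 * p.L ^ 2) ≤ 1 / (100 * p.L ^ 2) * (100 * p.L ^ 2) :=
            mul_le_mul_of_nonneg_right (min_le_right _ _) (by positivity)
        _ = 1 := by field_simp
  have hs' : p.Small (-η) := by
    unfold Par.Small
    rw [abs_neg]; exact hs
  have hF : ∀ z, F lam a0 z = (p.F1 z, z.2) := fun z => rfl
  have hval : ∀ e : ℝ, e ≠ 0 → ∃ z ∈ Ball, p.gg e z ≠ F lam a0 z := by
    intro e he
    refine ⟨(1 / 2, 0), ?_, ?_⟩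
    · show ‖(1 / 2 : ℂ)‖ ^ 2 + ‖(0 : ℂ)‖ ^ 2 < 1
      norm_num
    · rw [hF]
      intro h
      have h3 : p.g1 e (1 / 2, 0) = p.F1 (1 / 2, 0) := congrArg Prod.fst h
      unfold Par.g1 at h3
      have h4 : (e : ℂ) * p.G (1 / 2, 0) = 0 := by linear_combination -h3
      have h5 : p.G (1 / 2, 0) = 1 / (8 * p.lam) := by
        unfold Par.G Par.F1
        have := p.lam_ne
        simp only
        field_simp
        ring
      rw [h5] at h4
      have h6 : (e : ℂ) ≠ 0 := by exact_mod_cast he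
      have h7 := p.lam_ne
      rcases mul_eq_zero.1 h4 with h | h
      · exact h6 h
      · have : (1 : ℂ) / (8 * p.lam) ≠ 0 := div_ne_zero one_ne_zero (mul_ne_zero (by norm_num) h7)
        exact this h
  refine ⟨p.gg η, Par.mem_SA hs hpos.ne', p.gg (-η), Par.mem_SA hs' (neg_ne_zero.2 hpos.ne'),
    hval η hpos.ne', hval (-η) (neg_ne_zero.2 hpos.ne'), fun z _ => ?_⟩
  rw [hF]
  unfold Par.gg Par.g1
  apply Prod.ext
  · simp only [Prod.smul_mk, Prod.mk_add_mk, smul_eq_mul]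
    push_cast
    ring
  · simp only [Prod.smul_mk, Prod.mk_add_mk, smul_eq_mul]
    ring

end Pool.Agent.Results.MP_2eb075_an.NotExtreme
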